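import Mathlib
import Pool.Agent.Lib.MP_9ae5d9_al.Defs
import Pool.Agent.Lib.MP_9ae5d9_al.U.Domain

set_option autoImplicit false

namespace Pool.Agent.Results.MP_9ae5d9_al.BothDisproved

open Pool.Agent.Lib.MP_9ae5d9_al

/-- Let `R` be an integral domain whose additive group is finitely generated (for example `𝔽_p`
or `ℤ`). For every `k ≥ 2` and every finite set `S` of elements of `R ≀ ℤ^k` (in particular every
finite generating set), `2^(n^k) ⪯ Conj(n)` fails: for every `C > 0` there are arbitrarily large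
`n` with `C * Conj(C n) < 2^(n^k)`. -/
theorem result (R : Type) [CommRing R] [IsDomain R] [Module.Finite ℤ R] (k : ℕ) (hk : 2 ≤ k)
    (S : Finset (Wreath R k)) (C : ℕ) (hC : 0 < C) (m : ℕ) :
    ∃ n : ℕ, m ≤ n ∧ (C : ℕ∞) * conjDepth S (C * n) < ((2 ^ (n ^ k) : ℕ) : ℕ∞) := by
  obtain ⟨E, hE⟩ := U.conjDepth_le_domain R S
  obtain ⟨n, N, hm, -, h1, h2⟩ := exists_violation_ge S E hE C hC k hk m
  exact ⟨n, hm, lt_of_le_of_lt h1 (by exact_mod_cast h2)⟩

/-- The negated form of Q1: the case `R = 𝔽_p`. -/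
theorem posedQ1 (p : ℕ) (hp : p.Prime) (k : ℕ) (hk : 2 ≤ k) (S : Finset (Wreath (ZMod p) k))
    (C : ℕ) (hC : 0 < C) (m : ℕ) :
    ∃ n : ℕ, m ≤ n ∧ (C : ℕ∞) * conjDepth S (C * n) < ((2 ^ (n ^ k) : ℕ) : ℕ∞) := by
  have := Fact.mk hp
  exact result (ZMod p) k hk S C hC m

/-- The negated form of Q2: the case `R = ℤ`, with `2 < log n` for `n ≥ 8`. -/
theorem posedQ2 (k : ℕ) (hk : 2 ≤ k) (S : Finset (Wreath ℤ k)) (C : ℕ) (hC : 0 < C) (m : ℕ) :
    ∃ n : ℕ, m ≤ n ∧ (C : ENNReal) * ENat.toENNReal (conjDepth S (C * n)) <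
      ENNReal.ofReal (Real.log n ^ (n ^ k)) := by
  obtain ⟨n, hn, h⟩ := result ℤ k hk S C hC (max m 8)
  refine ⟨n, le_trans (le_max_left _ _) hn, ?_⟩
  have hn8 : (8 : ℝ) ≤ n := by exact_mod_cast le_trans (le_max_right _ _) hn
  have h2 : (2 : ℝ) ≤ Real.log n := by
    have h3 : Real.log 8 = 3 * Real.log 2 := by
      rw [show (8 : ℝ) = 2 ^ 3 by norm_num, Real.log_pow]; norm_num
    have h4 := Real.log_le_log (by norm_num) hn8
    have h5 := Real.log_two_gt_d9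
    linarith
  have h6 := ENat.toENNReal_lt.2 h
  rw [ENat.toENNReal_mul, ENat.toENNReal_coe, ENat.toENNReal_coe] at h6
  refine h6.trans_le ?_
  rw [← ENNReal.ofReal_natCast]
  apply ENNReal.ofReal_le_ofReal
  push_cast
  exact pow_le_pow_left₀ (by norm_num) h2 _

end Pool.Agent.Results.MP_9ae5d9_al.BothDisproved
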