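import Mathlib
import Pool.Agent.Lib.MP_9ae5d9_al.Defs
import Pool.Agent.Lib.MP_9ae5d9_al.X.Lower

set_option autoImplicit false

namespace Pool.Agent.Results.MP_9ae5d9_al.FpLower

open Pool.Agent.Lib.MP_9ae5d9_al

/-- For every prime `p`, every `k ≥ 2` and every finite generating set `S` of `𝔽_p ≀ ℤ^k` there is
`C > 0` with `2 ^ (n * sqrt (log n)) ≤ Conj(C n)` for all `n ≥ 1`. -/
theorem result (p : ℕ) (hp : p.Prime) (k : ℕ) (hk : 2 ≤ k) (S : Finset (Wreath (ZMod p) k))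
    (hS : Subgroup.closure (S : Set (Wreath (ZMod p) k)) = ⊤) :
    ∃ C : ℕ, 0 < C ∧ ∀ n : ℕ, 1 ≤ n →
      ENNReal.ofReal ((2 : ℝ) ^ ((n : ℝ) * Real.sqrt (Real.log n))) ≤
        ENat.toENNReal (conjDepth S (C * n)) := by
  have := Fact.mk hp
  obtain ⟨C, hC, h⟩ := X.le_conjDepth hk S hS
  refine ⟨C * p ^ 2, Nat.mul_pos hC (Nat.pow_pos hp.pos), fun n hn => ?_⟩
  set a := Nat.log p n + 1 with ha
  set m := Nat.sqrt a with hm
  have h1 : n < p ^ a := Nat.lt_pow_succ_log_self hp.one_lt n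
  have h2 : p ^ a ≤ p * n := by
    rw [ha, pow_succ, mul_comm]
    exact Nat.mul_le_mul_left _ (Nat.pow_log_le_self p (by omega))
  have h3 := h (a + 1) m (C * p ^ 2 * n) ((Nat.sqrt_le a).trans (Nat.le_succ a)) (by
    calc C * p ^ (a + 1) = C * p * p ^ a := by ring
      _ ≤ C * p * (p * n) := Nat.mul_le_mul_left _ h2
      _ = C * p ^ 2 * n := by ring)
  refine le_trans ?_ (ENat.toENNReal_le.2 h3)
  rw [ENat.toENNReal_coe, ← ENNReal.ofReal_natCast]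
  apply ENNReal.ofReal_le_ofReal
  have hp1 : (2 : ℝ) ≤ p := by exact_mod_cast hp.two_le
  have hn0 : (0 : ℝ) < n := by exact_mod_cast hn
  have h4 : Real.log n ≤ a * p := by
    have h5 : (n : ℝ) ≤ (p : ℝ) ^ a := by exact_mod_cast h1.le
    have h6 := Real.log_le_log hn0 h5
    rw [Real.log_pow] at h6
    have h7 : Real.log p ≤ p := (Real.log_le_sub_one_of_pos (by linarith)).trans (by linarith)
    exact h6.trans (mul_le_mul_of_nonneg_left h7 (Nat.cast_nonneg _))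
  have h8 : (a : ℝ) ≤ ((m : ℝ) + 1) ^ 2 := by
    have := (Nat.lt_succ_sqrt' a).le
    exact_mod_cast this
  have h9 : Real.sqrt (Real.log n) ≤ p * ((m : ℝ) + 1) := by
    apply Real.sqrt_le_iff.2
    refine ⟨by positivity, h4.trans ?_⟩
    calc (a : ℝ) * p ≤ ((m : ℝ) + 1) ^ 2 * (p : ℝ) ^ 2 :=
          mul_le_mul h8 (by nlinarith) (by positivity) (by positivity)
      _ = (p * ((m : ℝ) + 1)) ^ 2 := by ring
  have h10 : (n : ℝ) * Real.sqrt (Real.log n) ≤ ((p ^ (a + 1) * (m + 1) : ℕ) : ℝ) := by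
    have h5 : (n : ℝ) ≤ (p : ℝ) ^ a := by exact_mod_cast h1.le
    push_cast
    calc (n : ℝ) * Real.sqrt (Real.log n) ≤ (p : ℝ) ^ a * (p * ((m : ℝ) + 1)) :=
          mul_le_mul h5 h9 (Real.sqrt_nonneg _) (by positivity)
      _ = _ := by ring
  calc (2 : ℝ) ^ ((n : ℝ) * Real.sqrt (Real.log n))
      ≤ (2 : ℝ) ^ ((p ^ (a + 1) * (m + 1) : ℕ) : ℝ) :=
        Real.rpow_le_rpow_of_exponent_le (by norm_num) h10
    _ = (2 : ℝ) ^ (p ^ (a + 1) * (m + 1)) := Real.rpow_natCast _ _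
    _ ≤ (p : ℝ) ^ (p ^ (a + 1) * (m + 1)) := pow_le_pow_left₀ (by norm_num) hp1 _
    _ = _ := by push_cast; rfl

end Pool.Agent.Results.MP_9ae5d9_al.FpLower
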