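import Mathlib
import Pool.Agent.Lib.MP_9ae5d9_al.Defs
import Pool.Agent.Lib.MP_9ae5d9_al.X.IntUpper

set_option autoImplicit false

namespace Pool.Agent.Results.MP_9ae5d9_al.IntUpper

open Pool.Agent.Lib.MP_9ae5d9_al

/-- For every `k` and every finite set `S` of elements of `ℤ ≀ ℤ^k` (in particular every finite
generating set) there is `E` with `Conj(n) ≤ 2 ^ (E n)` for all `n`. -/
theorem result (k : ℕ) (S : Finset (Wreath ℤ k)) :
    ∃ E : ℕ, ∀ n : ℕ, conjDepth S n ≤ ((2 ^ (E * n) : ℕ) : ℕ∞) :=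
  X.conjDepth_le_two_pow S

/-- The negated form of Q2 (take `j = k`), for all large `n`; `j = 1` excludes the lower bound
`log(n) ^ n`. -/
theorem posed (k j : ℕ) (hj : 1 ≤ j) (S : Finset (Wreath ℤ k)) (C : ℕ) :
    ∀ᶠ n : ℕ in Filter.atTop, (C : ENNReal) * ENat.toENNReal (conjDepth S (C * n)) <
      ENNReal.ofReal (Real.log n ^ (n ^ j)) := by
  obtain ⟨E, hE⟩ := result k S
  have hlog : ∀ᶠ n : ℕ in Filter.atTop, (2 : ℝ) ^ (E * C + C) ≤ Real.log n :=
    (Real.tendsto_log_atTop.comp tendsto_natCast_atTop_atTop).eventually_ge_atTop _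
  filter_upwards [hlog, Filter.eventually_ge_atTop 1] with n h1 hn
  have h2 : (C : ℝ) < 2 ^ (C * n) :=
    lt_of_lt_of_le (by exact_mod_cast Nat.lt_two_pow_self)
      (pow_le_pow_right₀ (by norm_num) (Nat.le_mul_of_pos_right _ hn))
  have h3 : (1 : ℝ) ≤ Real.log n := le_trans (one_le_pow₀ (by norm_num)) h1
  have h4 : (C : ℝ) * 2 ^ (E * (C * n)) < Real.log n ^ (n ^ j) :=
    calc (C : ℝ) * 2 ^ (E * (C * n)) < 2 ^ (C * n) * 2 ^ (E * (C * n)) :=
          mul_lt_mul_of_pos_right h2 (by positivity)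
      _ = ((2 : ℝ) ^ (E * C + C)) ^ n := by
          rw [← pow_add, ← pow_mul]
          congr 1
          ring
      _ ≤ Real.log n ^ n := pow_le_pow_left₀ (by positivity) h1 _
      _ ≤ Real.log n ^ (n ^ j) := pow_le_pow_right₀ h3 (Nat.le_self_pow (by omega) n)
  refine lt_of_le_of_lt (mul_le_mul_right (ENat.toENNReal_le.2 (hE (C * n))) _) ?_
  rw [ENat.toENNReal_coe, ← Nat.cast_mul, ← ENNReal.ofReal_natCast]
  refine (ENNReal.ofReal_lt_ofReal_iff_of_nonneg (Nat.cast_nonneg _)).2 ?_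
  exact_mod_cast h4

end Pool.Agent.Results.MP_9ae5d9_al.IntUpper
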